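import Pool.Agent.TH612.GS.Stm3

/-!
# Project GF: a tail of a convergent sum (HD)
-/

set_option autoImplicit false

namespace Pool.Agent.TH479.GF

open Complex Filter Topology MeasureTheory Set
open Pool.Agent.TH612.CF Pool.Agent.TH612.GS
open Pool.Agent.W182.KO hiding ee SS_summable

noncomputable section

/-- one term -/
lemma term_le {N : ℕ} {x D W : ℝ} (hN : 1 ≤ N) (hx0 : 0 ≤ x) (hx : x ≤ D * (N : ℝ) ^ (1 / 20 : ℝ))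
    (hW : 1 ≤ W) (hWN : W ≤ N) :
    (N : ℝ)⁻¹ * (x ^ 2 * (N : ℝ)⁻¹) ≤
      D ^ 2 * W ^ (-(4 / 5) : ℝ) * (N : ℝ) ^ (-(11 / 10) : ℝ) := by
  have hN0 : (0 : ℝ) < N := by exact_mod_cast hN
  have h1 : x ^ 2 ≤ D ^ 2 * (N : ℝ) ^ (1 / 10 : ℝ) := by
    have h2 : x ^ 2 ≤ (D * (N : ℝ) ^ (1 / 20 : ℝ)) ^ 2 := by gcongr
    have h3 : ((N : ℝ) ^ (1 / 20 : ℝ)) ^ 2 = (N : ℝ) ^ (1 / 10 : ℝ) := by
      rw [← Real.rpow_natCast, ← Real.rpow_mul hN0.le]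
      norm_num
    rw [mul_pow, h3] at h2
    exact h2
  have h4 : (N : ℝ) ^ (-(4 / 5) : ℝ) ≤ W ^ (-(4 / 5) : ℝ) :=
    Real.rpow_le_rpow_of_nonpos (by linarith) hWN (by norm_num)
  have h5 : (N : ℝ)⁻¹ = (N : ℝ) ^ (-1 : ℝ) := (Real.rpow_neg_one _).symm
  calc (N : ℝ)⁻¹ * (x ^ 2 * (N : ℝ)⁻¹) ≤
        (N : ℝ)⁻¹ * ((D ^ 2 * (N : ℝ) ^ (1 / 10 : ℝ)) * (N : ℝ)⁻¹) := by gcongr
    _ = D ^ 2 * ((N : ℝ) ^ (-(4 / 5) : ℝ) * (N : ℝ) ^ (-(11 / 10) : ℝ)) := by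
        rw [h5]
        have h6 : (N : ℝ) ^ (-(4 / 5) : ℝ) * (N : ℝ) ^ (-(11 / 10) : ℝ) =
            (N : ℝ) ^ (-1 : ℝ) * (N : ℝ) ^ (1 / 10 : ℝ) * (N : ℝ) ^ (-1 : ℝ) := by
          rw [← Real.rpow_add hN0, ← Real.rpow_add hN0, ← Real.rpow_add hN0]
          norm_num
        rw [h6]
        ring
    _ ≤ D ^ 2 * (W ^ (-(4 / 5) : ℝ) * (N : ℝ) ^ (-(11 / 10) : ℝ)) := by gcongr
    _ = _ := by ring

/-- **HD** -/
theorem t_HD : Pool.Agent.TH612.GS.S_HD := by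
  classical
  intro k α
  obtain ⟨D, hD0, hD⟩ := tau_ptw k (κ := 1 / 20) (by norm_num)
  have hsum : Summable (fun m : ℕ => (m : ℝ) ^ (-(11 / 10) : ℝ)) :=
    Real.summable_nat_rpow.2 (by norm_num)
  have hZ : 0 ≤ ∑' m : ℕ, (m : ℝ) ^ (-(11 / 10) : ℝ) := tsum_nonneg fun m => by positivity
  refine ⟨D ^ 2 * (∑' m : ℕ, (m : ℝ) ^ (-(11 / 10) : ℝ)) ^ k + 1, by positivity,
    fun X W hW => ?_⟩
  have hW0 : 0 < W := by linarith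
  have htau : ∀ n : ℕ, ‖tau (fun j => -(I * (α j : ℂ))) n‖ ≤ D * (n : ℝ) ^ (1 / 20 : ℝ) := by
    intro n
    have h := hD α n
    have e : (fun j => -(I * (α j : ℂ))) = fun j => -((α j : ℂ) * I) := by
      funext j
      rw [mul_comm]
    rw [e]
    exact h
  refine (Finset.sum_le_sum (g := fun n : Fin k → ℕ => D ^ 2 * W ^ (-(4 / 5) : ℝ) *
    ∏ l, ((n l : ℕ) : ℝ) ^ (-(11 / 10) : ℝ)) fun n hn => ?_).trans ?_
  · rw [Finset.mem_filter, Fintype.mem_piFinset] at hn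
    have hN : 1 ≤ ∏ l, n l := by
      refine Nat.one_le_iff_ne_zero.2 (Finset.prod_ne_zero_iff.2 fun l _ => ?_)
      have := (Finset.mem_Icc.1 (hn.1 l)).1
      omega
    have h := term_le hN (norm_nonneg _) (htau _) hW hn.2
    refine h.trans (le_of_eq ?_)
    congr 1
    rw [Real.finsetProd_rpow _ _ (fun j _ => by positivity)]
    congr 1
    push_cast
    rfl
  · refine (Finset.sum_le_sum_of_subset_of_nonneg (Finset.filter_subset _ _)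
      fun n _ _ => by positivity).trans ?_
    rw [← Finset.mul_sum]
    have h1 : ∑ n ∈ Fintype.piFinset (fun _ : Fin k => Finset.Icc 1 X),
        ∏ l, ((n l : ℕ) : ℝ) ^ (-(11 / 10) : ℝ) =
        (∑ m ∈ Finset.Icc 1 X, (m : ℝ) ^ (-(11 / 10) : ℝ)) ^ k := by
      have h2 := Finset.prod_univ_sum (fun _ : Fin k => Finset.Icc 1 X)
        (fun _ (m : ℕ) => (m : ℝ) ^ (-(11 / 10) : ℝ))
      rw [← h2, Finset.prod_const, Finset.card_univ, Fintype.card_fin]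
    rw [h1]
    have h3 : ∑ m ∈ Finset.Icc 1 X, (m : ℝ) ^ (-(11 / 10) : ℝ) ≤
        ∑' m : ℕ, (m : ℝ) ^ (-(11 / 10) : ℝ) :=
      hsum.sum_le_tsum _ fun m _ => by positivity
    have h4 : (∑ m ∈ Finset.Icc 1 X, (m : ℝ) ^ (-(11 / 10) : ℝ)) ^ k ≤
        (∑' m : ℕ, (m : ℝ) ^ (-(11 / 10) : ℝ)) ^ k := by
      refine pow_le_pow_left₀ (Finset.sum_nonneg fun m _ => by positivity) h3 k
    have h5 : 0 ≤ W ^ (-(4 / 5) : ℝ) := by positivity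
    calc D ^ 2 * W ^ (-(4 / 5) : ℝ) * (∑ m ∈ Finset.Icc 1 X, (m : ℝ) ^ (-(11 / 10) : ℝ)) ^ k ≤
          D ^ 2 * W ^ (-(4 / 5) : ℝ) * (∑' m : ℕ, (m : ℝ) ^ (-(11 / 10) : ℝ)) ^ k := by gcongr
      _ ≤ _ := by nlinarith

end

end Pool.Agent.TH479.GF
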